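import Mathlib

set_option autoImplicit false

namespace Pool.Agent.Helper53.CI

/-- The form `x^2 + 3xy + y^2` has no nontrivial rational zero. -/
theorem no_rat_root (x y : ℚ) (h : x ^ 2 + 3 * x * y + y ^ 2 = 0) : x = 0 := by
  by_contra hx
  have hy : y ≠ 0 := by
    rintro rfl
    apply hx
    have : x ^ 2 = 0 := by linarith
    exact pow_eq_zero_iff (two_ne_zero) |>.mp this
  have h5 : ((2 * x + 3 * y) / y) ^ 2 = 5 := by
    field_simp
    linear_combination 4 * h
  have hirr : Irrational (Real.sqrt (5 : ℕ)) := Nat.Prime.irrational_sqrt (by norm_num)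
  apply hirr
  refine ⟨|(2 * x + 3 * y) / y|, ?_⟩
  have h5' : (((|(2 * x + 3 * y) / y| : ℚ)) : ℝ) ^ 2 = ((5 : ℕ) : ℝ) := by
    have : (|(2 * x + 3 * y) / y| : ℚ) ^ 2 = 5 := by rw [sq_abs]; exact h5
    exact_mod_cast this
  rw [← h5', Real.sqrt_sq]
  exact_mod_cast abs_nonneg _

/-- The weighted form. -/
def ip (l : Fin 3 → ℚ) (u v : Fin 3 → ℚ) : ℚ := l 0 * u 0 * v 0 + l 1 * u 1 * v 1 + l 2 * u 2 * v 2

/-- The configuration lemma, normalised so that `v0 = (1,1,1)`. -/
theorem config_norm (l : Fin 3 → ℚ) (h0 : 0 < l 0) (h1 : 0 < l 1) (h2 : 0 < l 2)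
    (v0 a1m a1p a2m a2p a3m a3p v1 v2 x u w : Fin 3 → ℚ)
    (hv0 : v0 = fun _ => 1)
    (e1 : a1m 0 = 0) (e2 : ip l a1m v0 = 0) (e3 : a1p 0 = 0) (e4 : ip l a1p a1m = 0)
    (e5 : a2m 1 = 0) (e6 : ip l a2m v0 = 0) (e7 : a2p 1 = 0) (e8 : ip l a2p a2m = 0)
    (e9 : a3m 2 = 0) (e10 : ip l a3m v0 = 0) (e11 : a3p 2 = 0) (e12 : ip l a3p a3m = 0)
    (e13 : ip l v1 a2p = 0) (e14 : ip l v1 a3p = 0) (e15 : ip l v1 a1m = 0)
    (e16 : ip l v2 a1p = 0) (e17 : ip l v2 a3p = 0) (e18 : ip l v2 a2m = 0)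
    (e19 : ip l x v0 = 0) (e20 : ip l u x = 0) (e21 : ip l u v1 = 0)
    (e22 : ip l w x = 0) (e23 : ip l w v2 = 0) (e24 : ip l u w = 0)
    (n1 : a1m 1 ≠ 0) (n2 : a1p 1 ≠ 0) (n3 : a2m 0 ≠ 0) (n4 : a2p 0 ≠ 0) (n5 : a3m 0 ≠ 0)
    (n6 : a3p 0 ≠ 0) (n7 : v1 0 ≠ 0) (n8 : v2 0 ≠ 0) (n9 : x 0 ≠ 0) (n10 : u 2 ≠ 0)
    (n11 : w 2 ≠ 0) : False := by
  subst hv0
  simp only [ip, mul_one] at *
  generalize l 0 = A at *
  generalize l 1 = B at *
  generalize l 2 = C at *
  have hA0 : A ≠ 0 := h0.ne'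
  have hB0 : B ≠ 0 := h1.ne'
  have hC0 : C ≠ 0 := h2.ne'
  rw [e1, e3] at *
  rw [e5, e7] at *
  rw [e9, e11] at *
  -- a1p ∝ (0,1,1)
  have f1 : a1p 2 = a1p 1 := by
    have : a1m 1 * B * (a1p 1 - a1p 2) = 0 := by
      linear_combination e4 - a1p 2 * e2
    have := mul_ne_zero n1 hB0
    have h3 : a1p 1 - a1p 2 = 0 := by
      rcases mul_eq_zero.mp ‹a1m 1 * B * (a1p 1 - a1p 2) = 0› with h | h
      · exact absurd h this
      · exact h
    linarith
  have f2 : a2p 2 = a2p 0 := by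
    have h : a2m 0 * A * (a2p 0 - a2p 2) = 0 := by
      linear_combination e8 - a2p 2 * e6
    have := mul_ne_zero n3 hA0
    rcases mul_eq_zero.mp h with h | h
    · exact absurd h this
    · linarith
  have f3 : a3p 1 = a3p 0 := by
    have h : a3m 0 * A * (a3p 0 - a3p 1) = 0 := by
      linear_combination e12 - a3p 1 * e10
    have := mul_ne_zero n5 hA0
    rcases mul_eq_zero.mp h with h | h
    · exact absurd h this
    · linarith
  -- v1
  have g1 : A * v1 0 + C * v1 2 = 0 := by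
    have h : a2p 0 * (A * v1 0 + C * v1 2) = 0 := by
      rw [f2] at e13
      linear_combination e13
    rcases mul_eq_zero.mp h with h | h
    · exact absurd h n4
    · exact h
  have g2 : A * v1 0 + B * v1 1 = 0 := by
    have h : a3p 0 * (A * v1 0 + B * v1 1) = 0 := by
      rw [f3] at e14
      linear_combination e14
    rcases mul_eq_zero.mp h with h | h
    · exact absurd h n6
    · exact h
  have g3 : v1 1 = v1 2 := by
    have h : a1m 1 * B * (v1 1 - v1 2) = 0 := by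
      linear_combination e15 - v1 2 * e2
    have := mul_ne_zero n1 hB0
    rcases mul_eq_zero.mp h with h | h
    · exact absurd h this
    · linarith
  have g4 : B = C := by
    have h : v1 1 * (B - C) = 0 := by
      rw [← g3] at g1
      linear_combination g2 - g1
    rcases mul_eq_zero.mp h with h | h
    · exfalso
      rw [h] at g2
      apply n7
      have : A * v1 0 = 0 := by linarith
      rcases mul_eq_zero.mp this with h | h
      · exact absurd h hA0
      · exact h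
    · linarith
  -- v2
  have k1 : B * v2 1 + C * v2 2 = 0 := by
    have h : a1p 1 * (B * v2 1 + C * v2 2) = 0 := by
      rw [f1] at e16
      linear_combination e16
    rcases mul_eq_zero.mp h with h | h
    · exact absurd h n2
    · exact h
  have k2 : A * v2 0 + B * v2 1 = 0 := by
    have h : a3p 0 * (A * v2 0 + B * v2 1) = 0 := by
      rw [f3] at e17
      linear_combination e17
    rcases mul_eq_zero.mp h with h | h
    · exact absurd h n6
    · exact h
  have k3 : v2 0 = v2 2 := by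
    have h : a2m 0 * A * (v2 0 - v2 2) = 0 := by
      linear_combination e18 - v2 2 * e6
    have := mul_ne_zero n3 hA0
    rcases mul_eq_zero.mp h with h | h
    · exact absurd h this
    · linarith
  have k4 : A = C := by
    have h : v2 0 * (A - C) = 0 := by
      rw [← k3] at k1
      linear_combination k2 - k1
    rcases mul_eq_zero.mp h with h | h
    · exact absurd h n8
    · linarith
  subst g4
  subst k4
  -- normalise
  have cancel : ∀ t : ℚ, A * t = 0 → t = 0 := by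
    intro t ht
    rcases mul_eq_zero.mp ht with h | h
    · exact absurd h hA0
    · exact h
  have p1 : v1 0 = - v1 2 := by
    have := cancel (v1 0 + v1 2) (by linear_combination g1)
    linarith
  have p2 : v2 1 = - v2 0 := by
    have := cancel (v2 0 + v2 1) (by linear_combination k2)
    linarith
  have n7' : v1 2 ≠ 0 := by
    intro h
    apply n7
    rw [p1, h, neg_zero]
  have q1 : x 0 + x 1 + x 2 = 0 := cancel _ (by linear_combination e19)
  have q2 : u 0 * x 0 + u 1 * x 1 + u 2 * x 2 = 0 := cancel _ (by linear_combination e20)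
  have q3 : u 0 = u 1 + u 2 := by
    have h : v1 2 * (u 0 - u 1 - u 2) = 0 := by
      apply cancel
      rw [g3, p1] at e21
      linear_combination - e21
    rcases mul_eq_zero.mp h with h | h
    · exact absurd h n7'
    · linarith
  have q4 : w 0 * x 0 + w 1 * x 1 + w 2 * x 2 = 0 := cancel _ (by linear_combination e22)
  have q5 : w 1 = w 0 + w 2 := by
    have h : v2 0 * (w 0 - w 1 + w 2) = 0 := by
      apply cancel
      rw [p2, ← k3] at e23
      linear_combination e23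
    rcases mul_eq_zero.mp h with h | h
    · exact absurd h n8
    · linarith
  have q6 : u 0 * w 0 + u 1 * w 1 + u 2 * w 2 = 0 := cancel _ (by linear_combination e24)
  obtain ⟨s, hs⟩ : ∃ s, s = x 0 + x 1 := ⟨_, rfl⟩
  have r1 : u 1 * s = u 2 * x 1 := by
    rw [hs]
    have hx2 : x 2 = - (x 0 + x 1) := by linarith
    rw [hx2, q3] at q2
    linear_combination q2
  have r2 : w 0 * s = w 2 * x 0 := by
    rw [hs]
    have hx2 : x 2 = - (x 0 + x 1) := by linarith
    rw [hx2, q5] at q4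
    linear_combination q4
  rw [q3, q5] at q6
  have r3 : u 2 * w 2 * (2 * (x 0 * x 1 + s ^ 2)) = 0 := by
    have hxs : x 0 + x 1 = s := hs.symm
    have key : u 2 * w 2 * (2 * (x 0 * x 1 + s ^ 2)) =
        s ^ 2 * ((u 1 + u 2) * w 0 + u 1 * (w 0 + w 2) + u 2 * w 2) := by
      have : s ^ 2 * ((u 1 + u 2) * w 0 + u 1 * (w 0 + w 2) + u 2 * w 2) =
        2 * (u 1 * s) * (w 0 * s) + u 2 * s * (w 0 * s) + w 2 * s * (u 1 * s) + s ^ 2 * u 2 * w 2 := by
        ring
      rw [this, r1, r2]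
      have : x 1 = s - x 0 := by linarith
      rw [this]
      ring
    rw [key, q6, mul_zero]
  have r4 : x 0 * x 1 + s ^ 2 = 0 := by
    rcases mul_eq_zero.mp r3 with h | h
    · exact absurd h (mul_ne_zero n10 n11)
    · linarith
  apply n9
  apply no_rat_root (x 0) (x 1)
  rw [hs] at r4
  linear_combination r4

/-- The configuration lemma for a general `v0` with nonzero coordinates. -/
theorem config (l : Fin 3 → ℚ) (h0 : 0 < l 0) (h1 : 0 < l 1) (h2 : 0 < l 2)
    (v0 a1m a1p a2m a2p a3m a3p v1 v2 x u w : Fin 3 → ℚ)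
    (z0 : v0 0 ≠ 0) (z1 : v0 1 ≠ 0) (z2 : v0 2 ≠ 0)
    (e1 : a1m 0 = 0) (e2 : ip l a1m v0 = 0) (e3 : a1p 0 = 0) (e4 : ip l a1p a1m = 0)
    (e5 : a2m 1 = 0) (e6 : ip l a2m v0 = 0) (e7 : a2p 1 = 0) (e8 : ip l a2p a2m = 0)
    (e9 : a3m 2 = 0) (e10 : ip l a3m v0 = 0) (e11 : a3p 2 = 0) (e12 : ip l a3p a3m = 0)
    (e13 : ip l v1 a2p = 0) (e14 : ip l v1 a3p = 0) (e15 : ip l v1 a1m = 0)
    (e16 : ip l v2 a1p = 0) (e17 : ip l v2 a3p = 0) (e18 : ip l v2 a2m = 0)
    (e19 : ip l x v0 = 0) (e20 : ip l u x = 0) (e21 : ip l u v1 = 0)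
    (e22 : ip l w x = 0) (e23 : ip l w v2 = 0) (e24 : ip l u w = 0)
    (n1 : a1m 1 ≠ 0) (n2 : a1p 1 ≠ 0) (n3 : a2m 0 ≠ 0) (n4 : a2p 0 ≠ 0) (n5 : a3m 0 ≠ 0)
    (n6 : a3p 0 ≠ 0) (n7 : v1 0 ≠ 0) (n8 : v2 0 ≠ 0) (n9 : x 0 ≠ 0) (n10 : u 2 ≠ 0)
    (n11 : w 2 ≠ 0) : False := by
  have hz : ∀ k, v0 k ≠ 0 := by
    intro k; fin_cases k
    · exact z0
    · exact z1
    · exact z2
  have key : ∀ a b : Fin 3 → ℚ, ip (fun k => l k * (v0 k) ^ 2) (fun k => a k / v0 k)
      (fun k => b k / v0 k) = ip l a b := by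
    intro a b
    have h0 := hz 0
    have h1 := hz 1
    have h2 := hz 2
    simp only [ip]
    field_simp
  have pos : ∀ k, 0 < l k → 0 < l k * (v0 k) ^ 2 := by
    intro k hk
    have := hz k
    positivity
  refine config_norm (fun k => l k * (v0 k) ^ 2) (pos 0 h0) (pos 1 h1) (pos 2 h2)
    (fun k => v0 k / v0 k) (fun k => a1m k / v0 k) (fun k => a1p k / v0 k)
    (fun k => a2m k / v0 k) (fun k => a2p k / v0 k) (fun k => a3m k / v0 k)
    (fun k => a3p k / v0 k) (fun k => v1 k / v0 k) (fun k => v2 k / v0 k)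
    (fun k => x k / v0 k) (fun k => u k / v0 k) (fun k => w k / v0 k) ?_
    ?_ ?_ ?_ ?_ ?_ ?_ ?_ ?_ ?_ ?_ ?_ ?_ ?_ ?_ ?_ ?_ ?_ ?_ ?_ ?_ ?_ ?_ ?_ ?_
    ?_ ?_ ?_ ?_ ?_ ?_ ?_ ?_ ?_ ?_ ?_
  · funext k; exact div_self (hz k)
  · simp [e1]
  · rw [key]; exact e2
  · simp [e3]
  · rw [key]; exact e4
  · simp [e5]
  · rw [key]; exact e6
  · simp [e7]
  · rw [key]; exact e8
  · simp [e9]
  · rw [key]; exact e10
  · simp [e11]
  · rw [key]; exact e12
  · rw [key]; exact e13
  · rw [key]; exact e14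
  · rw [key]; exact e15
  · rw [key]; exact e16
  · rw [key]; exact e17
  · rw [key]; exact e18
  · rw [key]; exact e19
  · rw [key]; exact e20
  · rw [key]; exact e21
  · rw [key]; exact e22
  · rw [key]; exact e23
  · rw [key]; exact e24
  all_goals
    first
    | exact div_ne_zero n1 (hz _)
    | exact div_ne_zero n2 (hz _)
    | exact div_ne_zero n3 (hz _)
    | exact div_ne_zero n4 (hz _)
    | exact div_ne_zero n5 (hz _)
    | exact div_ne_zero n6 (hz _)
    | exact div_ne_zero n7 (hz _)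
    | exact div_ne_zero n8 (hz _)
    | exact div_ne_zero n9 (hz _)
    | exact div_ne_zero n10 (hz _)
    | exact div_ne_zero n11 (hz _)

end Pool.Agent.Helper53.CI
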