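import Mathlib
import Pool.Agent.Helper53.CIAlg

set_option autoImplicit false

namespace Pool.Agent.Helper53.CI

theorem parseval {ι : Type*} [Fintype ι] [DecidableEq ι] (W : ι → ℚ) (E : ι → ι → ℚ)
    (D : ι → ℚ) (hD : ∀ k, D k ≠ 0)
    (orth : ∀ k l, ∑ c, W c * E k c * E l c = if k = l then D k else 0) (f g : ι → ℚ) :
    ∑ c, W c * f c * g c =
      ∑ k, (∑ c, W c * f c * E k c) * (∑ c, W c * g c * E k c) / D k := by
  let M : Matrix ι ι ℚ := fun k c => E k c
  let N : Matrix ι ι ℚ := fun c k => W c * E k c / D k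
  have h1 : M * N = 1 := by
    ext k l
    rw [Matrix.mul_apply, Matrix.one_apply]
    have : ∀ c, M k c * N c l = (W c * E k c * E l c) / D l := by
      intro c; simp only [M, N]; ring
    rw [Finset.sum_congr rfl (fun c _ => this c), ← Finset.sum_div, orth]
    split_ifs with h
    · subst h; exact div_self (hD _)
    · simp
  have h2 : N * M = 1 := mul_eq_one_comm.mp h1
  have h3 : ∀ c c', ∑ k, W c * E k c / D k * E k c' = if c = c' then 1 else 0 := by
    intro c c'
    have := congrFun (congrFun h2 c) c'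
    rw [Matrix.mul_apply, Matrix.one_apply] at this
    exact this
  have h4 : ∀ k, (∑ c, W c * f c * E k c) * (∑ c, W c * g c * E k c) / D k =
      ∑ c, ∑ c', f c * (W c' * g c') * (W c * E k c / D k * E k c') := by
    intro k
    rw [Finset.sum_mul_sum, Finset.sum_div]
    refine Finset.sum_congr rfl fun c _ => ?_
    rw [Finset.sum_div]
    refine Finset.sum_congr rfl fun c' _ => ?_
    ring
  rw [Finset.sum_congr rfl (fun k _ => h4 k), Finset.sum_comm]
  refine Finset.sum_congr rfl fun c _ => ?_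
  rw [Finset.sum_comm]
  have h5 : ∀ c', ∑ k, f c * (W c' * g c') * (W c * E k c / D k * E k c') =
      f c * (W c' * g c') * (if c = c' then 1 else 0) := by
    intro c'
    rw [← Finset.mul_sum, h3]
  rw [Finset.sum_congr rfl (fun c' _ => h5 c')]
  simp
  ring

/-- cells -/
abbrev Cell := Fin 2 × Fin 2

/-- scaled covariance -/
def cov (W : Cell → ℚ) (f g : Cell → ℚ) : ℚ :=
  (∑ c, W c) * (∑ c, W c * f c * g c) - (∑ c, W c * f c) * (∑ c, W c * g c)

theorem cov_comm (W : Cell → ℚ) (f g : Cell → ℚ) : cov W f g = cov W g f := by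
  unfold cov
  have : ∑ c, W c * f c * g c = ∑ c, W c * g c * f c :=
    Finset.sum_congr rfl fun c _ => by ring
  rw [this]; ring

/-- centred function -/
def cen (W : Cell → ℚ) (f : Cell → ℚ) : Cell → ℚ :=
  fun c => f c - (∑ c, W c * f c) / (∑ c, W c)

theorem sum_cen (W : Cell → ℚ) (hT : (∑ c, W c) ≠ 0) (f : Cell → ℚ) :
    ∑ c, W c * cen W f c = 0 := by
  have : ∀ c, W c * cen W f c = W c * f c - W c * ((∑ c, W c * f c) / (∑ c, W c)) := by
    intro c; unfold cen; ring
  rw [Finset.sum_congr rfl (fun c _ => this c), Finset.sum_sub_distrib, ← Finset.sum_mul]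
  field_simp
  ring

theorem sum_cen_cen (W : Cell → ℚ) (hT : (∑ c, W c) ≠ 0) (f g : Cell → ℚ) :
    ∑ c, W c * cen W f c * cen W g c = cov W f g / (∑ c, W c) := by
  have h0 := sum_cen W hT f
  have : ∀ c, W c * cen W f c * cen W g c = W c * f c * g c -
      (∑ c, W c * f c) / (∑ c, W c) * (W c * g c) -
      (∑ c, W c * g c) / (∑ c, W c) * (W c * cen W f c) := by
    intro c; unfold cen; ring
  rw [Finset.sum_congr rfl (fun c _ => this c), Finset.sum_sub_distrib, Finset.sum_sub_distrib,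
    ← Finset.mul_sum, ← Finset.mul_sum, h0, mul_zero, sub_zero]
  unfold cov
  field_simp

theorem cov_parseval (W : Cell → ℚ) (hT : 0 < (∑ c, W c)) (e1 e2 e3 : Cell → ℚ)
    (h12 : cov W e1 e2 = 0) (h13 : cov W e1 e3 = 0) (h23 : cov W e2 e3 = 0)
    (n1 : cov W e1 e1 ≠ 0) (n2 : cov W e2 e2 ≠ 0) (n3 : cov W e3 e3 ≠ 0) (f g : Cell → ℚ) :
    cov W f g = cov W f e1 * cov W g e1 / cov W e1 e1 + cov W f e2 * cov W g e2 / cov W e2 e2
      + cov W f e3 * cov W g e3 / cov W e3 e3 := by
  have hT' : (∑ c, W c) ≠ 0 := hT.ne'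
  have h21 : cov W e2 e1 = 0 := by rw [cov_comm]; exact h12
  have h31 : cov W e3 e1 = 0 := by rw [cov_comm]; exact h13
  have h32 : cov W e3 e2 = 0 := by rw [cov_comm]; exact h23
  let E : Cell → Cell → ℚ := fun k => if k = (0, 0) then (fun _ => 1) else
    if k = (0, 1) then cen W e1 else if k = (1, 0) then cen W e2 else cen W e3
  let D : Cell → ℚ := fun k => if k = (0, 0) then (∑ c, W c) else
    if k = (0, 1) then cov W e1 e1 / (∑ c, W c) else
    if k = (1, 0) then cov W e2 e2 / (∑ c, W c) else cov W e3 e3 / (∑ c, W c)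
  have hD : ∀ k, D k ≠ 0 := by
    intro k
    simp only [D]
    split_ifs
    · exact hT'
    · exact div_ne_zero n1 hT'
    · exact div_ne_zero n2 hT'
    · exact div_ne_zero n3 hT'
  have horth : ∀ k l, ∑ c, W c * E k c * E l c = if k = l then D k else 0 := by
    have one : ∀ f : Cell → ℚ, ∑ c, W c * 1 * cen W f c = 0 := by
      intro f
      have := sum_cen W hT' f
      simpa using this
    have one' : ∀ f : Cell → ℚ, ∑ c, W c * cen W f c * 1 = 0 := by
      intro f
      have := sum_cen W hT' f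
      simpa using this
    rintro ⟨k1, k2⟩ ⟨l1, l2⟩
    fin_cases k1 <;> fin_cases k2 <;> fin_cases l1 <;> fin_cases l2 <;>
      simp [E, D, one, one', sum_cen_cen W hT', h12, h13, h23, h21, h31, h32, sum_cen W hT']
  have key := parseval W E D hD horth (cen W f) (cen W g)
  have s4 : ∀ F : Cell → ℚ, ∑ k, F k = F (0, 0) + F (0, 1) + F (1, 0) + F (1, 1) := by
    intro F
    rw [Fintype.sum_prod_type, Fin.sum_univ_two, Fin.sum_univ_two, Fin.sum_univ_two]
    ring
  rw [sum_cen_cen W hT',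
    s4 (fun k => (∑ c, W c * cen W f c * E k c) * (∑ c, W c * cen W g c * E k c) / D k)] at key
  have hE0 : E (0, 0) = fun _ => 1 := by simp [E]
  have hE1 : E (0, 1) = cen W e1 := by simp [E]
  have hE2 : E (1, 0) = cen W e2 := by simp [E]
  have hE3 : E (1, 1) = cen W e3 := by simp [E]
  have hD1 : D (0, 1) = cov W e1 e1 / (∑ c, W c) := by simp [D]
  have hD2 : D (1, 0) = cov W e2 e2 / (∑ c, W c) := by simp [D]
  have hD3 : D (1, 1) = cov W e3 e3 / (∑ c, W c) := by simp [D]
  simp only [hE0, hE1, hE2, hE3, hD1, hD2, hD3, sum_cen_cen W hT', mul_one, sum_cen W hT',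
    zero_mul, zero_div, zero_add] at key
  generalize (∑ c, W c) = T at *
  field_simp at key
  field_simp
  linear_combination key

theorem cov_self_pos (W : Cell → ℚ) (hW : ∀ c, 0 < W c) (e f : Cell → ℚ)
    (h : cov W f e ≠ 0) : 0 < cov W e e := by
  have hT : 0 < ∑ c, W c := Finset.sum_pos (fun c _ => hW c) ⟨(0, 0), Finset.mem_univ _⟩
  have h1 := sum_cen_cen W hT.ne' e e
  have h2 : 0 ≤ ∑ c, W c * cen W e c * cen W e c :=
    Finset.sum_nonneg fun c _ => by
      have := (hW c).le
      have h3 : W c * cen W e c * cen W e c = W c * (cen W e c) ^ 2 := by ring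
      rw [h3]; positivity
  have h3 : 0 ≤ cov W e e := by
    rw [h1] at h2
    have := mul_nonneg h2 hT.le
    rwa [div_mul_cancel₀ _ hT.ne'] at this
  rcases h3.lt_or_eq with h4 | h4
  · exact h4
  · exfalso
    apply h
    have h5 : ∑ c, W c * cen W e c * cen W e c = 0 := by rw [h1, ← h4]; simp
    have h6 : ∀ c, cen W e c = 0 := by
      intro c
      have h7 := (Finset.sum_eq_zero_iff_of_nonneg (fun c _ => by
        have := (hW c).le
        have h3 : W c * cen W e c * cen W e c = W c * (cen W e c) ^ 2 := by ring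
        rw [h3]; positivity)).mp h5 c (Finset.mem_univ c)
      have h8 : W c * (cen W e c * cen W e c) = 0 := by linarith
      rcases mul_eq_zero.mp h8 with h9 | h9
      · exact absurd h9 (hW c).ne'
      · exact mul_self_eq_zero.mp h9
    have h7 := sum_cen_cen W hT.ne' f e
    have h8 : ∑ c, W c * cen W f c * cen W e c = 0 :=
      Finset.sum_eq_zero fun c _ => by rw [h6 c, mul_zero]
    rw [h8] at h7
    have h9 := h7.symm
    rw [div_eq_zero_iff] at h9
    rcases h9 with h9 | h9
    · exact h9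
    · exact absurd h9 hT.ne'

/-- The list of orthogonal pairs used. -/
def edges : List (Fin 17 × Fin 17) :=
  [(2, 3), (2, 4), (3, 4), (6, 2), (6, 5), (7, 2), (7, 6), (8, 3), (8, 5), (9, 3), (9, 8),
   (10, 4), (10, 5), (11, 4), (11, 10), (12, 9), (12, 11), (12, 6), (13, 7), (13, 11), (13, 8),
   (14, 5), (15, 14), (15, 12), (16, 14), (16, 13), (15, 16)]

/-- The list of non-orthogonal pairs used. -/
def nonedges : List (Fin 17 × Fin 17) :=
  [(5, 2), (5, 3), (5, 4), (6, 3), (7, 3), (8, 2), (9, 2), (10, 2), (11, 2), (12, 2), (13, 2),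
   (14, 2), (15, 4), (16, 4)]

theorem no_rat (W : Cell → ℚ) (hW : ∀ c, 0 < W c) (a : Fin 17 → Cell → ℚ)
    (hE : ∀ p ∈ edges, cov W (a p.1) (a p.2) = 0)
    (hN : ∀ p ∈ nonedges, cov W (a p.1) (a p.2) ≠ 0) : False := by
  have hT : 0 < ∑ c, W c := Finset.sum_pos (fun c _ => hW c) ⟨(0, 0), Finset.mem_univ _⟩
  have p1 : 0 < cov W (a 2) (a 2) := cov_self_pos W hW _ (a 5) (hN (5, 2) (by decide))
  have p2 : 0 < cov W (a 3) (a 3) := cov_self_pos W hW _ (a 5) (hN (5, 3) (by decide))
  have p3 : 0 < cov W (a 4) (a 4) := cov_self_pos W hW _ (a 5) (hN (5, 4) (by decide))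
  have PV := cov_parseval W hT (a 2) (a 3) (a 4) (hE (2, 3) (by decide)) (hE (2, 4) (by decide))
    (hE (3, 4) (by decide)) p1.ne' p2.ne' p3.ne'
  let l : Fin 3 → ℚ := ![1 / cov W (a 2) (a 2), 1 / cov W (a 3) (a 3), 1 / cov W (a 4) (a 4)]
  let X : Fin 17 → Fin 3 → ℚ := fun i => ![cov W (a i) (a 2), cov W (a i) (a 3), cov W (a i) (a 4)]
  have key : ∀ i j, ip l (X i) (X j) = cov W (a i) (a j) := by
    intro i j
    rw [PV (a i) (a j)]
    simp [ip, l, X]
    ring
  have hE' : ∀ i j, (i, j) ∈ edges → ip l (X i) (X j) = 0 := by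
    intro i j h
    rw [key]; exact hE (i, j) h
  exact config l (by simpa [l] using p1) (by simpa [l] using p2) (by simpa [l] using p3)
    (X 5) (X 6) (X 7) (X 8) (X 9) (X 10) (X 11) (X 12) (X 13) (X 14) (X 15) (X 16)
    (hN (5, 2) (by decide)) (hN (5, 3) (by decide)) (hN (5, 4) (by decide))
    (hE (6, 2) (by decide)) (hE' 6 5 (by decide)) (hE (7, 2) (by decide)) (hE' 7 6 (by decide))
    (hE (8, 3) (by decide)) (hE' 8 5 (by decide)) (hE (9, 3) (by decide)) (hE' 9 8 (by decide))
    (hE (10, 4) (by decide)) (hE' 10 5 (by decide)) (hE (11, 4) (by decide))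
    (hE' 11 10 (by decide))
    (hE' 12 9 (by decide)) (hE' 12 11 (by decide)) (hE' 12 6 (by decide))
    (hE' 13 7 (by decide)) (hE' 13 11 (by decide)) (hE' 13 8 (by decide))
    (hE' 14 5 (by decide)) (hE' 15 14 (by decide)) (hE' 15 12 (by decide))
    (hE' 16 14 (by decide)) (hE' 16 13 (by decide)) (hE' 15 16 (by decide))
    (hN (6, 3) (by decide)) (hN (7, 3) (by decide)) (hN (8, 2) (by decide))
    (hN (9, 2) (by decide)) (hN (10, 2) (by decide)) (hN (11, 2) (by decide))
    (hN (12, 2) (by decide)) (hN (13, 2) (by decide)) (hN (14, 2) (by decide))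
    (hN (15, 4) (by decide)) (hN (16, 4) (by decide))

end Pool.Agent.Helper53.CI
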