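import Mathlib
import Pool.Agent.Helper53.CILin

set_option autoImplicit false

namespace Pool.Agent.Helper53.CI

/-- binary tables on 17 variables -/
abbrev Tab := Fin 17 → Fin 2

/-- marginal -/
def mg {F : Type*} [CommRing F] (R : Tab → F) (U : Finset (Fin 17)) (x : Tab) : F :=
  ∑ z ∈ (Finset.univ : Finset Tab).filter (fun z : Tab => ∀ k ∈ U, z k = x k), R z

/-- conditional independence statement -/
def CIs {F : Type*} [CommRing F] (R : Tab → F) (i j : Fin 17) (K : Finset (Fin 17)) : Prop :=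
  ∀ x y : Tab, (∀ k ∈ K, x k = y k) →
    mg R (insert i (insert j K)) x * mg R (insert i (insert j K)) y =
    mg R (insert i (insert j K)) (Function.update x j (y j)) *
    mg R (insert i (insert j K)) (Function.update y j (x j))

/-- joint mass of `z i = b`, `z j = b'` -/
def jm {F : Type*} [CommRing F] (R : Tab → F) (i j : Fin 17) (b b' : Fin 2) : F :=
  ∑ z : Tab, if z i = b ∧ z j = b' then R z else 0

/-- mass of `z i = 1` -/
def sm {F : Type*} [CommRing F] (R : Tab → F) (i : Fin 17) : F :=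
  ∑ z : Tab, if z i = 1 then R z else 0

theorem two (t : Fin 2) : t = 0 ∨ t = 1 := by revert t; decide

section
variable {F : Type*} [CommRing F] (R : Tab → F) (i j : Fin 17)

theorem jm_10 : jm R i j 1 0 = sm R i - jm R i j 1 1 := by
  unfold jm sm
  rw [← Finset.sum_sub_distrib]
  refine Finset.sum_congr rfl fun z _ => ?_
  rcases two (z i) with h | h <;> rcases two (z j) with h' | h' <;> simp [h, h']

theorem jm_01 : jm R i j 0 1 = sm R j - jm R i j 1 1 := by
  unfold jm sm
  rw [← Finset.sum_sub_distrib]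
  refine Finset.sum_congr rfl fun z _ => ?_
  rcases two (z i) with h | h <;> rcases two (z j) with h' | h' <;> simp [h, h']

theorem jm_00 : jm R i j 0 0 = (∑ z, R z) - sm R i - sm R j + jm R i j 1 1 := by
  unfold jm sm
  rw [← Finset.sum_sub_distrib, ← Finset.sum_sub_distrib, ← Finset.sum_add_distrib]
  refine Finset.sum_congr rfl fun z _ => ?_
  rcases two (z i) with h | h <;> rcases two (z j) with h' | h' <;> simp [h, h']

theorem jm_det : jm R i j 1 1 * jm R i j 0 0 - jm R i j 1 0 * jm R i j 0 1 =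
    (∑ z, R z) * jm R i j 1 1 - sm R i * sm R j := by
  rw [jm_10, jm_01, jm_00]; ring

theorem mg_insert (K : Finset (Fin 17)) (x : Tab) :
    mg R (insert i (insert j K)) x =
      jm (fun z => if ∀ k ∈ K, z k = x k then R z else 0) i j (x i) (x j) := by
  unfold mg jm
  rw [Finset.sum_filter]
  refine Finset.sum_congr rfl fun z _ => ?_
  simp only [Finset.forall_mem_insert]
  by_cases h1 : z i = x i <;> by_cases h2 : z j = x j <;> simp [h1, h2]

theorem mg_empty (x : Tab) :
    mg R (insert i (insert j ∅)) x = jm R i j (x i) (x j) := by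
  rw [mg_insert]
  simp

theorem CIs_empty_iff (hij : i ≠ j) :
    CIs R i j ∅ ↔ (∑ z, R z) * jm R i j 1 1 = sm R i * sm R j := by
  rw [← sub_eq_zero, ← jm_det, sub_eq_zero]
  unfold CIs
  constructor
  · intro h
    have := h (fun _ => 1) (fun _ => 0) (by simp)
    rw [mg_empty, mg_empty, mg_empty, mg_empty] at this
    simpa [hij] using this
  · intro h x y _
    rw [mg_empty, mg_empty, mg_empty, mg_empty]
    simp only [Function.update_self, Function.update_of_ne hij]
    rcases two (x i) with h1 | h1 <;> rcases two (x j) with h2 | h2 <;>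
      rcases two (y i) with h3 | h3 <;> rcases two (y j) with h4 | h4 <;>
      rw [h1, h2, h3, h4] <;> first | ring | linear_combination h | linear_combination -h

end

/-- cell predicate weight -/
def cw {F : Type*} [CommRing F] (R : Tab → F) (c : Cell) : Tab → F :=
  fun z => if z 0 = c.1 ∧ z 1 = c.2 then R z else 0

theorem CIs_cell {F : Type*} [CommRing F] (R : Tab → F) (i j : Fin 17) (hij : i ≠ j)
    (hi0 : i ≠ 0) (hi1 : i ≠ 1) (hj0 : j ≠ 0) (hj1 : j ≠ 1) (h : CIs R i j {0, 1}) (c : Cell) :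
    (∑ z, cw R c z) * jm (cw R c) i j 1 1 = sm (cw R c) i * sm (cw R c) j := by
  rw [← sub_eq_zero, ← jm_det, sub_eq_zero]
  have key := h (fun k => if k = 0 then c.1 else if k = 1 then c.2 else 1)
    (fun k => if k = 0 then c.1 else if k = 1 then c.2 else 0) (by
      intro k hk
      simp only [Finset.mem_insert, Finset.mem_singleton] at hk
      rcases hk with rfl | rfl <;> simp)
  have gen : ∀ x : Tab, x 0 = c.1 → x 1 = c.2 →
      mg R (insert i (insert j {0, 1})) x = jm (cw R c) i j (x i) (x j) := by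
    intro x h0 h1
    rw [mg_insert]
    unfold cw
    congr 1
    funext z
    simp [h0, h1]
  rw [gen _ (by simp) (by simp), gen _ (by simp) (by simp),
    gen _ (by simp [Function.update_of_ne hj0.symm]) (by simp [Function.update_of_ne hj1.symm]),
    gen _ (by simp [Function.update_of_ne hj0.symm]) (by simp [Function.update_of_ne hj1.symm])]
    at key
  simpa [hi0, hi1, hj0, hj1, hij] using key

set_option maxRecDepth 100000 in
theorem good_edges : ∀ p ∈ edges, p.1 ≠ p.2 ∧ p.1 ≠ 0 ∧ p.1 ≠ 1 ∧ p.2 ≠ 0 ∧ p.2 ≠ 1 := by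
  decide

set_option maxRecDepth 100000 in
theorem good_nonedges : ∀ p ∈ nonedges, p.1 ≠ p.2 ∧ p.1 ≠ 0 ∧ p.1 ≠ 1 ∧ p.2 ≠ 0 ∧ p.2 ≠ 1 := by
  decide

/-- From a positive rational table to the covariance picture. -/
theorem table_contra (Q : Tab → ℚ) (hQ : ∀ z, 0 < Q z)
    (hcell : ∀ i j : Fin 17, i ≠ j → i ≠ 0 → i ≠ 1 → j ≠ 0 → j ≠ 1 → CIs Q i j {0, 1})
    (hE : ∀ p ∈ edges, CIs Q p.1 p.2 ∅) (hN : ∀ p ∈ nonedges, ¬ CIs Q p.1 p.2 ∅) : False := by
  let W : Cell → ℚ := fun c => ∑ z, cw Q c z
  have hW : ∀ c, 0 < W c := by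
    intro c
    refine Finset.sum_pos' (fun z _ => ?_) ⟨fun k => if k = 0 then c.1 else c.2,
      Finset.mem_univ _, ?_⟩
    · unfold cw
      split_ifs
      · exact (hQ z).le
      · exact le_rfl
    · unfold cw
      rw [if_pos (by simp)]
      exact hQ _
  let a : Fin 17 → Cell → ℚ := fun i c => sm (cw Q c) i / W c
  -- sums over cells
  have part : ∀ G : Tab → ℚ, ∑ c : Cell, ∑ z, (if z 0 = c.1 ∧ z 1 = c.2 then G z else 0) =
      ∑ z, G z := by
    intro G
    rw [Finset.sum_comm]
    refine Finset.sum_congr rfl fun z _ => ?_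
    have : ∀ c : Cell, (if z 0 = c.1 ∧ z 1 = c.2 then G z else 0) =
        if (z 0, z 1) = c then G z else 0 := by
      intro c
      simp [Prod.ext_iff]
    rw [Finset.sum_congr rfl fun c _ => this c]
    simp
  have hT : ∑ c, W c = ∑ z, Q z := part Q
  have hS : ∀ i, ∑ c, W c * a i c = sm Q i := by
    intro i
    have h1 : ∀ c, W c * a i c = sm (cw Q c) i := by
      intro c
      have := (hW c).ne'
      simp only [a]
      field_simp
    rw [Finset.sum_congr rfl fun c _ => h1 c]
    have h2 := part (fun z => if z i = 1 then Q z else 0)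
    unfold sm
    rw [← h2]
    refine Finset.sum_congr rfl fun c _ => Finset.sum_congr rfl fun z _ => ?_
    unfold cw
    by_cases h3 : z i = 1 <;> simp [h3]
  have hM : ∀ i j : Fin 17, i ≠ j → i ≠ 0 → i ≠ 1 → j ≠ 0 → j ≠ 1 →
      ∑ c, W c * a i c * a j c = jm Q i j 1 1 := by
    intro i j hij hi0 hi1 hj0 hj1
    have h1 : ∀ c, W c * a i c * a j c = jm (cw Q c) i j 1 1 := by
      intro c
      have h2 := CIs_cell Q i j hij hi0 hi1 hj0 hj1 (hcell i j hij hi0 hi1 hj0 hj1) c
      have h3 := (hW c).ne'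
      have h4 : W c * jm (cw Q c) i j 1 1 = sm (cw Q c) i * sm (cw Q c) j := h2
      simp only [a]
      field_simp
      linear_combination -h4
    rw [Finset.sum_congr rfl fun c _ => h1 c]
    have h2 := part (fun z => if z i = 1 ∧ z j = 1 then Q z else 0)
    unfold jm
    rw [← h2]
    refine Finset.sum_congr rfl fun c _ => Finset.sum_congr rfl fun z _ => ?_
    unfold cw
    by_cases h3 : z i = 1 ∧ z j = 1 <;> simp [h3]
  have hcov : ∀ i j : Fin 17, i ≠ j → i ≠ 0 → i ≠ 1 → j ≠ 0 → j ≠ 1 →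
      (CIs Q i j ∅ ↔ cov W (a i) (a j) = 0) := by
    intro i j hij hi0 hi1 hj0 hj1
    rw [CIs_empty_iff Q i j hij]
    unfold cov
    rw [hT, hS, hS, hM i j hij hi0 hi1 hj0 hj1, sub_eq_zero]
  refine no_rat W hW a ?_ ?_
  · intro p hp
    have h := hE p hp
    have h0 := good_edges p hp
    exact (hcov p.1 p.2 h0.1 h0.2.1 h0.2.2.1 h0.2.2.2.1 h0.2.2.2.2).mp h
  · intro p hp
    have h := hN p hp
    have h0 := good_nonedges p hp
    rwa [hcov p.1 p.2 h0.1 h0.2.1 h0.2.2.1 h0.2.2.2.1 h0.2.2.2.2] at h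

end Pool.Agent.Helper53.CI
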