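import Mathlib
import Pool.Agent.Helper53.CITab

set_option autoImplicit false

namespace Pool.Agent.Helper53.CI

/-- sign of a state -/
noncomputable def sg (b : Fin 2) : ℝ := if b = 0 then 1 else -1

/-- the configuration of vectors in three-space -/
noncomputable def vec (φ : ℝ) : Fin 17 → Fin 3 → ℝ :=
  ![![0, 0, 0], ![0, 0, 0], ![1, 0, 0], ![0, 1, 0], ![0, 0, 1], ![1, 1, 1], ![0, 1, -1],
    ![0, 1, 1], ![1, 0, -1], ![1, 0, 1], ![1, -1, 0], ![1, 1, 0], ![-1, 1, 1], ![1, -1, 1],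
    ![1, -(φ + 1), φ], ![φ + 1, φ, 1], ![-1, φ - 1, φ]]

/-- dot product -/
noncomputable def dot (u v : Fin 3 → ℝ) : ℝ := u 0 * v 0 + u 1 * v 1 + u 2 * v 2

/-- function on the four cells attached to a vector -/
noncomputable def fv (u : Fin 3 → ℝ) (c : Cell) : ℝ := u 0 * sg c.1 + u 1 * sg c.2 + u 2 * (sg c.1 * sg c.2)

/-- factor -/
noncomputable def H (φ : ℝ) (c : Cell) (k : Fin 17) (b : Fin 2) : ℝ :=
  if k = 0 then (if b = c.1 then 1 else 0) else
  if k = 1 then (if b = c.2 then 1 else 0) else 1 / 2 + sg b * fv (vec φ k) c / 20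

/-- the real table -/
noncomputable def P (φ : ℝ) (z : Tab) : ℝ := ∑ c : Cell, ∏ k, H φ c k (z k)

theorem H_sum (φ : ℝ) (c : Cell) (k : Fin 17) : ∑ b, H φ c k b = 1 := by
  unfold H
  by_cases h0 : k = 0
  · simp [h0]
  by_cases h1 : k = 1
  · simp [h1]
  simp [h0, h1, sg, Fin.sum_univ_two]
  ring

theorem mg_P (φ : ℝ) (U : Finset (Fin 17)) (x : Tab) :
    mg (P φ) U x = ∑ c : Cell, ∏ k ∈ U, H φ c k (x k) := by
  unfold mg P
  rw [Finset.sum_comm]
  refine Finset.sum_congr rfl fun c _ => ?_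
  have h1 : (Finset.univ : Finset Tab).filter (fun z : Tab => ∀ k ∈ U, z k = x k) =
      Fintype.piFinset (fun k => if k ∈ U then {x k} else Finset.univ) := by
    ext z
    simp only [Finset.mem_filter, Finset.mem_univ, true_and, Fintype.mem_piFinset]
    refine forall_congr' fun k => ?_
    by_cases h : k ∈ U <;> simp [h]
  rw [h1, ← Finset.prod_univ_sum]
  have h2 : ∀ k, ∑ b ∈ (if k ∈ U then {x k} else Finset.univ), H φ c k b =
      if k ∈ U then H φ c k (x k) else 1 := by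
    intro k
    by_cases h : k ∈ U
    · simp [h]
    · rw [if_neg h, if_neg h, H_sum]
  rw [Finset.prod_congr rfl fun k _ => h2 k, Finset.prod_ite_mem]
  simp

theorem H_pos (φ : ℝ) (h1 : 1 < φ) (h2 : φ < 2) (c : Cell) (k : Fin 17) (hk0 : k ≠ 0)
    (hk1 : k ≠ 1) (b : Fin 2) : 0 < H φ c k b := by
  unfold H
  rw [if_neg hk0, if_neg hk1]
  have key : |fv (vec φ k) c| < 10 := by
    rw [abs_lt]
    obtain ⟨c1, c2⟩ := c
    unfold fv
    rcases two c1 with rfl | rfl <;> rcases two c2 with rfl | rfl <;> fin_cases k <;>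
      constructor <;> simp [vec, sg] <;> linarith
  rw [abs_lt] at key
  rcases two b with rfl | rfl <;> simp only [sg] <;> simp <;> linarith [key.1, key.2]

theorem H_nonneg (φ : ℝ) (h1 : 1 < φ) (h2 : φ < 2) (c : Cell) (k : Fin 17) (b : Fin 2) :
    0 ≤ H φ c k b := by
  by_cases hk0 : k = 0
  · subst hk0; unfold H; rw [if_pos rfl]; split_ifs <;> norm_num
  by_cases hk1 : k = 1
  · subst hk1; unfold H; rw [if_neg (by decide), if_pos rfl]; split_ifs <;> norm_num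
  exact (H_pos φ h1 h2 c k hk0 hk1 b).le

theorem P_pos (φ : ℝ) (h1 : 1 < φ) (h2 : φ < 2) (z : Tab) : 0 < P φ z := by
  unfold P
  refine Finset.sum_pos' (fun c _ => Finset.prod_nonneg fun k _ => H_nonneg φ h1 h2 c k _)
    ⟨(z 0, z 1), Finset.mem_univ _, Finset.prod_pos fun k _ => ?_⟩
  by_cases hk0 : k = 0
  · subst hk0; unfold H; rw [if_pos rfl]; simp
  by_cases hk1 : k = 1
  · subst hk1; unfold H; rw [if_neg (by decide), if_pos rfl]; simp
  exact H_pos φ h1 h2 _ k hk0 hk1 _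

theorem mg_P_cell (φ : ℝ) (i j : Fin 17) (hij : i ≠ j) (hi0 : i ≠ 0) (hi1 : i ≠ 1) (hj0 : j ≠ 0)
    (hj1 : j ≠ 1) (x : Tab) :
    mg (P φ) (insert i (insert j {0, 1})) x =
      H φ (x 0, x 1) i (x i) * H φ (x 0, x 1) j (x j) := by
  rw [mg_P]
  have h : ∀ c : Cell, ∏ k ∈ insert i (insert j ({0, 1} : Finset (Fin 17))), H φ c k (x k) =
      if (x 0, x 1) = c then H φ c i (x i) * H φ c j (x j) else 0 := by
    intro c
    rw [Finset.prod_insert (by simp [hij, hi0, hi1]), Finset.prod_insert (by simp [hj0, hj1]),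
      Finset.prod_pair (by decide)]
    have e0 : H φ c 0 (x 0) = if x 0 = c.1 then 1 else 0 := by unfold H; rw [if_pos rfl]
    have e1 : H φ c 1 (x 1) = if x 1 = c.2 then 1 else 0 := by
      unfold H; rw [if_neg (by decide), if_pos rfl]
    rw [e0, e1]
    by_cases a0 : x 0 = c.1 <;> by_cases a1 : x 1 = c.2 <;> simp [a0, a1, Prod.ext_iff]
  rw [Finset.sum_congr rfl fun c _ => h c]
  simp

theorem CIs_P_cell (φ : ℝ) (i j : Fin 17) (hij : i ≠ j) (hi0 : i ≠ 0) (hi1 : i ≠ 1) (hj0 : j ≠ 0)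
    (hj1 : j ≠ 1) : CIs (P φ) i j {0, 1} := by
  intro x y hxy
  have h0 : x 0 = y 0 := hxy 0 (by simp)
  have h1 : x 1 = y 1 := hxy 1 (by simp)
  rw [mg_P_cell φ i j hij hi0 hi1 hj0 hj1, mg_P_cell φ i j hij hi0 hi1 hj0 hj1,
    mg_P_cell φ i j hij hi0 hi1 hj0 hj1, mg_P_cell φ i j hij hi0 hi1 hj0 hj1]
  simp only [Function.update_self, Function.update_of_ne hij, Function.update_of_ne hj0.symm,
    Function.update_of_ne hj1.symm, h0, h1]
  ring

theorem mg_P_empty (φ : ℝ) (i j : Fin 17) (hij : i ≠ j) (hi0 : i ≠ 0) (hi1 : i ≠ 1) (hj0 : j ≠ 0)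
    (hj1 : j ≠ 1) (x : Tab) :
    mg (P φ) (insert i (insert j ∅)) x =
      1 + sg (x i) * sg (x j) * (dot (vec φ i) (vec φ j) / 100) := by
  rw [mg_P]
  have h : ∀ c : Cell, ∏ k ∈ insert i (insert j (∅ : Finset (Fin 17))), H φ c k (x k) =
      (1 / 2 + sg (x i) * fv (vec φ i) c / 20) * (1 / 2 + sg (x j) * fv (vec φ j) c / 20) := by
    intro c
    rw [Finset.prod_insert (by simp [hij]), Finset.prod_insert (by simp)]
    unfold H
    rw [if_neg hi0, if_neg hi1, if_neg hj0, if_neg hj1]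
    simp
  rw [Finset.sum_congr rfl fun c _ => h c, Fintype.sum_prod_type, Fin.sum_univ_two,
    Fin.sum_univ_two, Fin.sum_univ_two]
  unfold fv dot
  have s0 : sg 0 = 1 := by simp [sg]
  have s1 : sg 1 = -1 := by simp [sg]
  simp only [s0, s1]
  ring

theorem CIs_P_empty (φ : ℝ) (i j : Fin 17) (hij : i ≠ j) (hi0 : i ≠ 0) (hi1 : i ≠ 1) (hj0 : j ≠ 0)
    (hj1 : j ≠ 1) : CIs (P φ) i j ∅ ↔ dot (vec φ i) (vec φ j) = 0 := by
  have s0 : sg 0 = 1 := by simp [sg]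
  have s1 : sg 1 = -1 := by simp [sg]
  constructor
  · intro h
    have key := h (fun _ => 1) (fun _ => 0) (by simp)
    rw [mg_P_empty φ i j hij hi0 hi1 hj0 hj1, mg_P_empty φ i j hij hi0 hi1 hj0 hj1,
      mg_P_empty φ i j hij hi0 hi1 hj0 hj1, mg_P_empty φ i j hij hi0 hi1 hj0 hj1] at key
    simp only [Function.update_self, Function.update_of_ne hij, s0, s1] at key
    linarith
  · intro h x y _
    rw [mg_P_empty φ i j hij hi0 hi1 hj0 hj1, mg_P_empty φ i j hij hi0 hi1 hj0 hj1,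
      mg_P_empty φ i j hij hi0 hi1 hj0 hj1, mg_P_empty φ i j hij hi0 hi1 hj0 hj1, h]
    ring

theorem edges_dot (φ : ℝ) (hφ : φ ^ 2 = φ + 1) : ∀ p ∈ edges, dot (vec φ p.1) (vec φ p.2) = 0 := by
  intro p hp
  fin_cases hp <;> simp [dot, vec] <;> first | linear_combination hφ | linear_combination -hφ | ring

theorem nonedges_dot (φ : ℝ) (h1 : 1 < φ) :
    ∀ p ∈ nonedges, dot (vec φ p.1) (vec φ p.2) ≠ 0 := by
  intro p hp
  fin_cases hp <;> simp [dot, vec] <;> linarith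

theorem exists_phi : ∃ φ : ℝ, φ ^ 2 = φ + 1 ∧ 1 < φ ∧ φ < 2 :=
  ⟨Real.goldenRatio, Real.goldenRatio_sq, Real.one_lt_goldenRatio, Real.goldenRatio_lt_two⟩

/-- The real positive table whose strict CI model has no rational point. -/
theorem main : ∃ R : Tab → ℝ, (∀ z, 0 < R z) ∧ ¬ ∃ Q : Tab → ℚ, (∀ z, 0 < Q z) ∧
    ∀ (i j : Fin 17) (K : Finset (Fin 17)), i ≠ j → i ∉ K → j ∉ K → (CIs R i j K ↔ CIs Q i j K) := by
  obtain ⟨φ, hφ, h1, h2⟩ := exists_phi
  refine ⟨P φ, P_pos φ h1 h2, ?_⟩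
  rintro ⟨Q, hQ, hCI⟩
  refine table_contra Q hQ ?_ ?_ ?_
  · intro i j hij hi0 hi1 hj0 hj1
    exact (hCI i j {0, 1} hij (by simp [hi0, hi1]) (by simp [hj0, hj1])).mp
      (CIs_P_cell φ i j hij hi0 hi1 hj0 hj1)
  · intro p hp
    have g := good_edges p hp
    exact (hCI p.1 p.2 ∅ g.1 (by simp) (by simp)).mp
      ((CIs_P_empty φ p.1 p.2 g.1 g.2.1 g.2.2.1 g.2.2.2.1 g.2.2.2.2).mpr (edges_dot φ hφ p hp))
  · intro p hp hc
    have g := good_nonedges p hp
    exact nonedges_dot φ h1 p hp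
      ((CIs_P_empty φ p.1 p.2 g.1 g.2.1 g.2.2.1 g.2.2.2.1 g.2.2.2.2).mp
        ((hCI p.1 p.2 ∅ g.1 (by simp) (by simp)).mpr hc))

end Pool.Agent.Helper53.CI
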